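import Pool.Agent.L0h38.MON.Stm
import Pool.Agent.R673.MG.Types

/-!
# Project MON (helper38): the module CEN
-/

set_option autoImplicit false

namespace Pool.Agent.L0h23.MON

open Pool.Agent.L0h38.MON

/-- module CEN -/
theorem CEN : S_CEN := by
  intro G _ hinf h3 N hN hNt
  have _ := hinf
  obtain ⟨hnc, hcyc⟩ := h3
  obtain ⟨⟨z, hzN⟩, hgen⟩ := hcyc N hNt
  have hmem : ∀ g ∈ N, ∃ a : ℤ, z ^ a = g := by
    intro g hg
    obtain ⟨a, ha⟩ := hgen ⟨g, hg⟩
    exact ⟨a, by simpa using congrArg Subtype.val ha⟩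
  have hconj : ∀ g : G, ∃ a : ℤ, z ^ a = g * z * g⁻¹ := fun g => hmem _ (hN.conj_mem z hzN g)
  have hfin : (Set.range fun g : G => g * z * g⁻¹).Finite := by
    by_cases hz : IsOfFinOrder z
    · refine hz.finite_zpowers.subset ?_
      rintro _ ⟨g, rfl⟩
      obtain ⟨a, ha⟩ := hconj g
      exact ⟨a, ha⟩
    · refine (Set.toFinite {z, z⁻¹}).subset ?_
      rintro _ ⟨g, rfl⟩
      obtain ⟨a, ha⟩ := hconj g
      obtain ⟨b, hb⟩ := hconj g⁻¹
      rw [inv_inv] at hb
      have e : z ^ (a * b) = z ^ (1 : ℤ) := by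
        rw [zpow_mul, ha, conj_zpow, hb]
        group
      have hab : a * b = 1 := injective_zpow_iff_not_isOfFinOrder.2 hz e
      rcases Int.eq_one_or_neg_one_of_mul_eq_one hab with h | h
      · rw [h, zpow_one] at ha
        left
        exact ha.symm
      · rw [h, zpow_neg, zpow_one] at ha
        right
        exact ha.symm
  have hfi : (Subgroup.centralizer {z}).FiniteIndex := by
    have hS : Finite (Set.range fun g : G => g * z * g⁻¹) := hfin
    have hq : Finite (G ⧸ Subgroup.centralizer {z}) := by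
      refine Finite.of_injective (fun q : G ⧸ Subgroup.centralizer {z} =>
        (⟨q.out * z * q.out⁻¹, ⟨q.out, rfl⟩⟩ : Set.range fun g : G => g * z * g⁻¹)) ?_
      intro q q' h
      have h1 : q.out * z * q.out⁻¹ = q'.out * z * q'.out⁻¹ := congrArg Subtype.val h
      rw [← QuotientGroup.out_eq' q, ← QuotientGroup.out_eq' q', QuotientGroup.eq]
      rw [Subgroup.mem_centralizer_singleton_iff]
      have h2 : z = q.out⁻¹ * (q'.out * z * q'.out⁻¹) * q.out := by
        rw [← h1]
        group
      calc q.out⁻¹ * q'.out * z = (q.out⁻¹ * (q'.out * z * q'.out⁻¹) * q.out) *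
            (q.out⁻¹ * q'.out) := by group
        _ = z * (q.out⁻¹ * q'.out) := by rw [← h2]
    exact Subgroup.finiteIndex_of_finite_quotient
  have htop := Pool.Agent.R673.MG.cyclic_no_fi hnc hcyc _ hfi
  have hz : z ∈ Subgroup.center G := by
    rw [Subgroup.mem_center_iff]
    intro g
    have hg : g ∈ Subgroup.centralizer {z} := by rw [htop]; trivial
    rw [Subgroup.mem_centralizer_singleton_iff] at hg
    exact hg
  intro g hg
  obtain ⟨a, rfl⟩ := hmem g hg
  exact Subgroup.zpow_mem _ hz a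

end Pool.Agent.L0h23.MON
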